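import Pool.Agent.Helper18.EW.Goals
import Pool.Agent.Helper43.Hw.Main

/-!
# EW packet G2: loads and identities of the special points
-/

set_option autoImplicit false

namespace Pool.Agent.Helper42.EW

open Finset
open Pool.Agent.Helper18.EW
open Pool.Agent.Helper43.Hw

theorem lz_one (μ R : ℕ) (κ x : ℕ → ℕ) (z : ℕ) : lz μ R 1 κ x z = va μ R κ x 0 z := by
  unfold lz
  simp

/-- the identity for one point which is old at the row `y` -/
theorem one_point {μ R : ℕ} {κ x : ℕ → ℕ} (hμ : 1 ≤ μ) (hR : μ + 2 ≤ R) (hp : Play μ R 1 κ x)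
    {y : ℕ} (hy : y < R) (hk : κ y = 1) :
    ∑ z ∈ Ico y R, va μ R κ x 0 z + oo μ R κ x y * T (R - 1 - y) + Sd μ R κ x y =
      (R - y) * va μ R κ x 0 y + Dd μ R κ x y := by
  obtain ⟨h2a, h2b, _, _⟩ := goalH2 μ R 1 κ x hμ hR hp
  obtain ⟨_, h12, _, _, h15, h16, _⟩ := PkH1.goalH1 μ R 1 κ x hμ hR hp
  have hc : (0 : ℕ) < κ y := by omega
  have hr : range (κ y) = {0} := by rw [hk]; rfl
  rcases Nat.eq_zero_or_pos (va μ R κ x 0 y) with h0 | h0
  · have hoo : oo μ R κ x y = 0 := by
      unfold oo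
      rw [hr, Finset.filter_singleton, if_neg (by omega)]
      rfl
    have hD : Dd μ R κ x y = 0 := by
      unfold Dd
      rw [hr, Finset.filter_singleton, if_neg (by omega)]
      rfl
    have hS : Sd μ R κ x y = 0 := by
      unfold Sd
      apply Finset.sum_eq_zero
      intro t ht
      rw [Finset.mem_filter, Finset.mem_range] at ht
      obtain ⟨ht1, ht2, ht3, ht4⟩ := ht
      exfalso
      have hk0 : κ t = 0 := by omega
      have h3 := (h12 0 t (by omega)).1 ⟨hk0, ht3⟩
      have h4 := (h15 0 t h3.1 h3.2).2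
      have h5 := (h16 y hy 0 hc).2.2.2
      have h6 : ¬ y < ac R κ x 0 + μ := fun h => by
        have := h5.2 h
        omega
      omega
    rw [hoo, hD, hS, h2b y hy 0 hc h0, h0]
    simp
  · have hoo : oo μ R κ x y = 1 := by
      unfold oo
      rw [hr, Finset.filter_singleton, if_pos h0]
      rfl
    have hD : Dd μ R κ x y = T (R - 1 - μ - ac R κ x 0) := by
      unfold Dd
      rw [hr, Finset.filter_singleton, if_pos h0, Finset.sum_singleton]
    have hS : Sd μ R κ x y =
        ∑ t ∈ (range y).filter (fun t => κ t = 0 ∧ 0 < x t ∧ U μ R x t ≤ R - 1 - y),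
          U μ R x t := by
      unfold Sd
      apply Finset.sum_congr _ (fun _ _ => rfl)
      apply Finset.filter_congr
      intro t _
      rw [hk, Nat.lt_one_iff]
    rw [hoo, hD, hS, one_mul]
    exact h2a y hy 0 hc h0

theorem goalG2 (hG1 : GoalG1) : GoalG2 := by
  intro μ R K τ s E e P hμ hg
  have hR : μ + 2 ≤ R := by
    have := hg.t1
    have := hg.tJ
    omega
  have hk : ∀ i y, s ≤ y → gk s e P i y = 1 := by
    intro i y hy
    unfold gk
    rw [if_neg]
    have : gs s e P i ≤ s := by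
      unfold gs
      split_ifs
      · exact le_refl _
      · omega
    omega
  refine ⟨⟨?_, ?_, ?_, ?_⟩, ?_, ?_⟩
  · intro z hz
    unfold gV
    apply Finset.sum_eq_zero
    intro i hi
    exact (hG1 μ R K τ s E e P hμ hg i (Finset.mem_range.1 hi)).2.2.1 z hz
  · intro z hz1 hz2
    unfold gV
    apply Finset.sum_congr rfl
    intro i hi
    exact (hG1 μ R K τ s E e P hμ hg i (Finset.mem_range.1 hi)).2.2.2.1 z hz1 hz2
  · intro z hz
    unfold gV
    calc _ ≤ ∑ _i ∈ range K, μ := Finset.sum_le_sum fun i hi =>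
          (hG1 μ R K τ s E e P hμ hg i (Finset.mem_range.1 hi)).2.2.2.2 z hz
      _ = K * μ := by simp
  · unfold gV
    rw [Finset.sum_comm]
    calc _ = ∑ _i ∈ range K, T μ := Finset.sum_congr rfl fun i hi =>
          (goalH2 μ R 1 _ _ hμ hR
            (hG1 μ R K τ s E e P hμ hg i (Finset.mem_range.1 hi)).1).2.2.1 0 (by omega)
      _ = K * T μ := by simp
  · intro y hy hyR
    unfold gV gO gK
    rw [← Finset.sum_add_distrib, ← Finset.sum_add_distrib]
    apply Finset.sum_congr rfl
    intro i hi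
    have hp := (hG1 μ R K τ s E e P hμ hg i (Finset.mem_range.1 hi)).1
    have h4 := (goalH4 μ R 1 _ _ hμ hR hp y hyR).2.2.1 (hk i y hy)
    rw [lz_one, lz_one] at h4
    exact h4
  · intro y hy hyR
    unfold gV gO gS gD
    rw [Finset.sum_comm, Finset.sum_mul, Finset.mul_sum, ← Finset.sum_add_distrib,
      ← Finset.sum_add_distrib, ← Finset.sum_add_distrib]
    apply Finset.sum_congr rfl
    intro i hi
    have hp := (hG1 μ R K τ s E e P hμ hg i (Finset.mem_range.1 hi)).1
    exact one_point hμ hR hp hyR (hk i y hy)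

end Pool.Agent.Helper42.EW
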